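import Pool.Agent.Lib.MP_3ecc11_lc.Main

set_option autoImplicit false

/-! From a linear bound for runs on full integer trees to the encoded statement. -/

namespace Pool.Agent.Lib.TV63

open Pool.Agent.Lib.MP_3ecc11_lc

/-- linear bound for runs on full integer trees -/
def RunLin (C : ℕ) : Prop :=
  ∀ (n : ℕ) (T S S' : BT ℤ) (c : ℕ), Full 0 ((n : ℤ) + 1) T → Full 0 ((n : ℤ) + 1) S →
    (preord T).length = n → Run (preord T) S S' c → c ≤ C * n

theorem mainLin {C : ℕ} (H : RunLin C) {α : Type} [LinearOrder α] (T T' : BT α) (S : ℕ → BT α)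
    (hT : (inord T).Pairwise (· < ·)) (hT' : inord T' = inord T) (h0 : S 0 = T')
    (hS : ∀ i : Fin (preord T).length, Splay (preord T)[i] (S i) (S (i + 1))) :
    ∑ i : Fin (preord T).length, (depth (S i) (preord T)[i] + 1) ≤ C * (preord T).length := by
  obtain ⟨f, hf, hm⟩ := exists_rank (inord T) hT
  have hr := run_of (inord T) f hf (preord T) S (fun x hx => (mem_preord x T).1 hx)
    (by rw [h0, hT']) hS
  have hp : ((inord T).map f).Pairwise (· < ·) := by
    rw [List.pairwise_map]
    exact hT.imp_of_mem (fun ha hb h => (hf _ ha _ hb).2 h)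
  rw [← length_preord] at hm
  have f1 : Full 0 ((preord T).length + 1) (relab f T) :=
    full_of _ _ _ (by omega) (by rw [inord_relab]; exact hp) (by rw [inord_relab]; exact hm)
  have f2 : Full 0 ((preord T).length + 1) (relab f (S 0)) :=
    full_of _ _ _ (by omega) (by rw [inord_relab, h0, hT']; exact hp)
      (by rw [inord_relab, h0, hT']; exact hm)
  rw [← preord_relab] at hr
  exact H _ (relab f T) _ _ _ f1 f2 (by rw [preord_relab, List.length_map]) hr

/-- encoded trees -/
abbrev FM : Type := FreeMagma (Option ℕ)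

def nd (a : ℕ) (l r : FM) : FM := FreeMagma.mul (FreeMagma.mul l (FreeMagma.of (some a))) r

def enc : BT ℕ → FM
  | .nil => FreeMagma.of none
  | .node l a r => nd a (enc l) (enc r)

def dec : FM → BT ℕ
  | .mul (.mul l (.of (some a))) r => .node (dec l) a (dec r)
  | _ => .nil

theorem dec_nd (a : ℕ) (l r : FM) : dec (nd a l r) = .node (dec l) a (dec r) := by
  rw [nd, dec]

/-- well-formed codes -/
def WF (U : FM) : Prop := enc (dec U) = U

theorem wf_nd (a : ℕ) (l r : FM) : WF (nd a l r) ↔ WF l ∧ WF r := by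
  rw [WF, dec_nd, enc, nd, nd]
  refine ⟨fun h => ?_, fun h => by rw [h.1, h.2]⟩
  injection h with h1 h2
  injection h1 with h3 _
  exact ⟨h3, h2⟩

theorem wf_nil : WF (FreeMagma.of none) := rfl

theorem depth_enc (dp : FM → ℕ → ℕ)
    (h : ∀ a l r x, dp (nd a l r) x =
      if x = a then 0 else if x < a then dp l x + 1 else dp r x + 1) (x : ℕ) :
    ∀ t : BT ℕ, (inord t).Pairwise (· < ·) → x ∈ inord t → dp (enc t) x = depth t x
  | .nil, _, hx => by simp [inord] at hx
  | .node l a r, hp, hx => by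
    simp only [inord, List.pairwise_append, List.pairwise_cons, List.mem_append, List.mem_cons]
      at hp hx
    obtain ⟨p1, ⟨p2, p3⟩, p4⟩ := hp
    rw [enc, h, depth]
    split_ifs with c1 c2
    · rfl
    · rcases hx with g | g | g
      · rw [depth_enc dp h x l p1 g]
      · exact absurd g c1
      · exact absurd (p2 x g) (by omega)
    · rcases hx with g | g | g
      · exact absurd (p4 x g a (Or.inl rfl)) c2
      · exact absurd g c1
      · rw [depth_enc dp h x r p3 g]

theorem splay_of {x : ℕ} {Q : FM → FM → Prop}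
    (hQ : ∀ U V, Q U V → Dbl x (dec U) (dec V) ∧ (WF U → WF V)) {U W V : FM}
    (h : Relation.ReflTransGen Q U W) (hW : Splay x (dec W) (dec V) ∧ (WF W → WF V)) :
    Splay x (dec U) (dec V) ∧ (WF U → WF V) := by
  induction h using Relation.ReflTransGen.head_induction_on with
  | refl => exact hW
  | head q _ ih => exact ⟨Splay.step _ _ _ (hQ _ _ q).1 ih.1, fun w => ih.2 ((hQ _ _ q).2 w)⟩

theorem bridge {C : ℕ} (H : RunLin C) :
  ∃ c : ℝ, 0 < c ∧
  ∀ (nil : FreeMagma (Option ℕ))
    (node : ℕ → FreeMagma (Option ℕ) → FreeMagma (Option ℕ) → FreeMagma (Option ℕ))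
    (inord preord : FreeMagma (Option ℕ) → List ℕ)
    (depth : FreeMagma (Option ℕ) → ℕ → ℕ)
    (T T' : FreeMagma (Option ℕ)) (S : ℕ → FreeMagma (Option ℕ)),
    nil = FreeMagma.of none →
    (∀ (a : ℕ) (l r : FreeMagma (Option ℕ)),
      node a l r = FreeMagma.mul (FreeMagma.mul l (FreeMagma.of (some a))) r) →
    inord nil = [] →
    (∀ (a : ℕ) (l r : FreeMagma (Option ℕ)), inord (node a l r) = inord l ++ a :: inord r) →
    preord nil = [] →
    (∀ (a : ℕ) (l r : FreeMagma (Option ℕ)), preord (node a l r) = a :: (preord l ++ preord r)) →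
    (∀ (a : ℕ) (l r : FreeMagma (Option ℕ)) (x : ℕ),
      depth (node a l r) x = if x = a then 0 else if x < a then depth l x + 1 else depth r x + 1) →
    (∀ P : FreeMagma (Option ℕ) → Prop, P nil →
      (∀ (a : ℕ) (l r : FreeMagma (Option ℕ)), P l → P r → P (node a l r)) → P T) →
    (∀ P : FreeMagma (Option ℕ) → Prop, P nil →
      (∀ (a : ℕ) (l r : FreeMagma (Option ℕ)), P l → P r → P (node a l r)) → P T') →
    List.Pairwise (fun p q : ℕ => p < q) (inord T) →
    inord T' = inord T →
    S 0 = T' →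
    (∀ i : ℕ, i < (preord T).length →
      ∀ x : ℕ, x = (preord T).getD i 0 →
      ∃ W : FreeMagma (Option ℕ),
        Relation.ReflTransGen
          (fun U V : FreeMagma (Option ℕ) =>
            ∀ R : FreeMagma (Option ℕ) → FreeMagma (Option ℕ) → Prop,
            (∀ (a b : ℕ) (A B C D : FreeMagma (Option ℕ)),
              R (node a (node b (node x A B) C) D) (node x A (node b B (node a C D)))) →
            (∀ (a b : ℕ) (A B C D : FreeMagma (Option ℕ)),
              R (node a A (node b B (node x C D))) (node x (node b (node a A B) C) D)) →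
            (∀ (a b : ℕ) (A B C D : FreeMagma (Option ℕ)),
              R (node a (node b A (node x B C)) D) (node x (node b A B) (node a C D))) →
            (∀ (a b : ℕ) (A B C D : FreeMagma (Option ℕ)),
              R (node a A (node b (node x B C) D)) (node x (node a A B) (node b C D))) →
            (∀ (a : ℕ) (l l' r : FreeMagma (Option ℕ)), R l l' → R (node a l r) (node a l' r)) →
            (∀ (a : ℕ) (l r r' : FreeMagma (Option ℕ)), R r r' → R (node a l r) (node a l r')) →
            R U V)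
          (S i) W ∧
        ((∃ A B : FreeMagma (Option ℕ), W = node x A B ∧ S (i + 1) = W) ∨
         (∃ (a : ℕ) (A B C : FreeMagma (Option ℕ)),
            (W = node a (node x A B) C ∧ S (i + 1) = node x A (node a B C)) ∨
            (W = node a A (node x B C) ∧ S (i + 1) = node x (node a A B) C)))) →
    (∑ i ∈ Finset.range (preord T).length,
        (((depth (S i) ((preord T).getD i 0) : ℕ) : ℝ) + 1))
      ≤ c * ((preord T).length : ℝ) := by
  refine ⟨C + 1, by positivity, ?_⟩
  intro nil node ino pre dp T T' S h1 h2 h3 h4 h5 h6 h7 h8 h9 h10 h11 h12 h13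
  obtain rfl : node = nd := by
    funext a l r
    exact h2 a l r
  subst h1
  have a1 := h8 (fun U => WF U ∧ ino U = inord (dec U) ∧ pre U = preord (dec U))
    ⟨wf_nil, h3, h5⟩ fun a l r p q => ⟨(wf_nd _ _ _).2 ⟨p.1, q.1⟩,
      by rw [h4, dec_nd, inord, p.2.1, q.2.1], by rw [h6, dec_nd, preord, p.2.2, q.2.2]⟩
  have a2 := h9 (fun U => WF U ∧ ino U = inord (dec U)) ⟨wf_nil, h3⟩ fun a l r p q =>
    ⟨(wf_nd _ _ _).2 ⟨p.1, q.1⟩, by rw [h4, dec_nd, inord, p.2, q.2]⟩
  rw [a1.2.1] at h10
  rw [a1.2.1, a2.2] at h11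
  rw [a1.2.2] at h13 ⊢
  have st : ∀ i, i < (preord (dec T)).length →
      Splay ((preord (dec T)).getD i 0) (dec (S i)) (dec (S (i + 1))) ∧
        (WF (S i) → WF (S (i + 1))) := by
    intro i hi
    obtain ⟨W, w1, w2⟩ := h13 i hi _ rfl
    refine splay_of (fun U V q => ?_) w1 ?_
    · refine q (fun U V => Dbl _ (dec U) (dec V) ∧ (WF U → WF V)) ?_ ?_ ?_ ?_ ?_ ?_
      · intro a b A B C D
        simp only [dec_nd, wf_nd]
        exact ⟨Dbl.zigzigL .., by tauto⟩
      · intro a b A B C D
        simp only [dec_nd, wf_nd]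
        exact ⟨Dbl.zigzigR .., by tauto⟩
      · intro a b A B C D
        simp only [dec_nd, wf_nd]
        exact ⟨Dbl.zigzagL .., by tauto⟩
      · intro a b A B C D
        simp only [dec_nd, wf_nd]
        exact ⟨Dbl.zigzagR .., by tauto⟩
      · intro a l l' r p
        simp only [dec_nd, wf_nd]
        exact ⟨Dbl.left _ _ _ _ p.1, fun w => ⟨p.2 w.1, w.2⟩⟩
      · intro a l r r' p
        simp only [dec_nd, wf_nd]
        exact ⟨Dbl.right _ _ _ _ p.1, fun w => ⟨w.1, p.2 w.2⟩⟩
    · rcases w2 with ⟨A, B, rfl, e⟩ | ⟨a, A, B, C, ⟨rfl, e⟩ | ⟨rfl, e⟩⟩ <;> rw [e] <;>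
        simp only [dec_nd, wf_nd]
      · exact ⟨Splay.done .., id⟩
      · exact ⟨Splay.zigL .., by tauto⟩
      · exact ⟨Splay.zigR .., by tauto⟩
  have inv : ∀ i, i ≤ (preord (dec T)).length →
      WF (S i) ∧ inord (dec (S i)) = inord (dec T) := by
    intro i
    induction i with
    | zero => exact fun _ => h12 ▸ ⟨a2.1, h11⟩
    | succ i ih =>
      intro hi
      have p := ih (by omega)
      exact ⟨(st i hi).2 p.1, (st i hi).1.inord_eq.trans p.2⟩
  have gd : ∀ i : Fin (preord (dec T)).length,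
      (preord (dec T)).getD i 0 = (preord (dec T))[i] := fun i => List.getD_eq_getElem _ _ i.2
  have key := mainLin H (dec T) (dec T') (fun i => dec (S i)) h10 h11 (by rw [h12])
    fun i => gd i ▸ (st i i.2).1
  rw [Finset.sum_range]
  have e : ∀ i : Fin (preord (dec T)).length, dp (S i) ((preord (dec T)).getD i 0) =
      depth (dec (S i)) (preord (dec T))[i] := by
    intro i
    obtain ⟨b1, b2⟩ := inv i i.2.le
    rw [gd i, ← depth_enc dp h7 _ _ (b2 ▸ h10)
      (b2 ▸ (mem_preord _ _).1 (List.getElem_mem i.2)), b1]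
  simp only [e]
  have key' : ((∑ i : Fin (preord (dec T)).length,
      (depth (dec (S i)) (preord (dec T))[i] + 1) : ℕ) : ℝ)
        ≤ ((C * (preord (dec T)).length : ℕ) : ℝ) := Nat.cast_le.2 key
  push_cast at key'
  have : (0 : ℝ) ≤ (preord (dec T)).length := Nat.cast_nonneg _
  linarith

end Pool.Agent.Lib.TV63
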